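import Mathlib

/-!
# The lower bound `(2k+2-d)/(2k+2)` for the `k`-independence ratio is never sharp

For `k ≥ 2` every finite graph with `n` vertices and `e` edges has a set of at most
`(2 (k + 1) e + n) / (2 k ^ 2 + 5 k + 4)` vertices whose deletion leaves a graph of maximum degree
at most `k`.
-/

set_option autoImplicit false

namespace Pool.Agent.Results.MP_10f18b_co.NotSharp

open SimpleGraph Finset

section Main

variable {V : Type} [Fintype V]

open scoped Classical in
/-- number of neighbours of `v` outside `C` -/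
noncomputable def dg (H : SimpleGraph V) (C : Finset V) (v : V) : ℕ :=
  (univ.filter fun w => H.Adj v w ∧ w ∉ C).card

/-- `S` induces a graph of maximum degree at most `k` -/
def IsKIndep (k : ℕ) (G : SimpleGraph V) (S : Finset V) : Prop :=
  ∀ v ∈ S, {w | w ∈ S ∧ G.Adj v w}.ncard ≤ k

/-- the `k`-independence number -/
noncomputable def kIndepNum (k : ℕ) (G : SimpleGraph V) : ℕ :=
  sSup {m | ∃ S : Finset V, S.card = m ∧ IsKIndep k G S}

open scoped Classical in
/-- the average degree -/
noncomputable def avgDeg (G : SimpleGraph V) : ℝ :=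
  (∑ v, (G.degree v : ℝ)) / (Fintype.card V : ℝ)

/-- `IsGood k H D`: deleting `D` leaves a graph of maximum degree at most `k` -/
def IsGood (k : ℕ) (H : SimpleGraph V) (D : Finset V) : Prop :=
  ∀ v, v ∉ D → dg H D v ≤ k

theorem dg_anti (H : SimpleGraph V) {B C : Finset V} (h : B ⊆ C) (v : V) : dg H C v ≤ dg H B v := by
  classical
  unfold dg
  apply card_le_card
  intro w
  simp only [mem_filter, mem_univ, true_and]
  exact fun hw => ⟨hw.1, fun hB => hw.2 (h hB)⟩

theorem dg_le_empty (H : SimpleGraph V) (C : Finset V) (v : V) : dg H C v ≤ dg H ∅ v :=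
  dg_anti H (empty_subset C) v

theorem dg_lt (H : SimpleGraph V) {C : Finset V} {u c : V} (hc : c ∈ C) (h : H.Adj u c) :
    dg H C u < dg H ∅ u := by
  classical
  unfold dg
  apply card_lt_card
  rw [Finset.ssubset_iff_of_subset]
  · exact ⟨c, by simp [h], by simp [hc]⟩
  · intro w
    simp only [mem_filter, mem_univ, true_and]
    exact fun hw => ⟨hw.1, notMem_empty _⟩

/-- delete `C`, and all edges between vertices whose degree outside `C` is at most `k` -/
def red (k : ℕ) (H : SimpleGraph V) (C : Finset V) : SimpleGraph V where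
  Adj u w := H.Adj u w ∧ u ∉ C ∧ w ∉ C ∧ (k < dg H C u ∨ k < dg H C w)
  symm := ⟨fun _ _ h => ⟨h.1.symm, h.2.2.1, h.2.1, h.2.2.2.symm⟩⟩
  loopless := ⟨fun _ h => h.1.ne rfl⟩

theorem red_le (k : ℕ) (H : SimpleGraph V) (C : Finset V) : red k H C ≤ H := fun _ _ h => h.1

theorem good_of_red [DecidableEq V] {k : ℕ} {H : SimpleGraph V} {C D : Finset V}
    (h : IsGood k (red k H C) D) : IsGood k H (D ∪ C) := by
  intro v hv
  simp only [mem_union, not_or] at hv
  by_cases hk : dg H C v ≤ k
  · exact (dg_anti H subset_union_right v).trans hk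
  · push Not at hk
    refine le_trans ?_ (h v hv.1)
    unfold dg
    apply card_le_card
    intro w
    simp only [mem_filter, mem_univ, true_and, mem_union, not_or]
    intro hw
    exact ⟨⟨hw.1, hv.2, hw.2.2, Or.inl hk⟩, hw.2.1⟩

/-- the number of edges -/
noncomputable def eN (H : SimpleGraph V) : ℕ := H.edgeSet.ncard

/-- the number of non-isolated vertices -/
noncomputable def sN (H : SimpleGraph V) : ℕ := H.support.ncard

theorem drop_edges {k : ℕ} {H : SimpleGraph V} {C : Finset V} (S : Finset (Sym2 V))
    (hS : ∀ e ∈ S, e ∈ H.edgeSet ∧ e ∉ (red k H C).edgeSet) :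
    eN (red k H C) + S.card ≤ eN H := by
  unfold eN
  rw [← Set.ncard_coe_finset, ← Set.ncard_union_eq]
  · apply Set.ncard_le_ncard
    · intro e he
      rcases he with he | he
      · exact edgeSet_mono (red_le k H C) he
      · exact (hS e he).1
    · exact Set.toFinite _
  · rw [Set.disjoint_left]
    intro e he he'
    exact (hS e he').2 he

theorem drop_support {k : ℕ} {H : SimpleGraph V} {C : Finset V} (T : Finset V)
    (hT : ∀ v ∈ T, v ∈ H.support ∧ v ∉ (red k H C).support) :
    sN (red k H C) + T.card ≤ sN H := by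
  unfold sN
  rw [← Set.ncard_coe_finset, ← Set.ncard_union_eq]
  · apply Set.ncard_le_ncard
    · intro e he
      rcases he with he | he
      · exact support_mono (red_le k H C) he
      · exact (hT e he).1
    · exact Set.toFinite _
  · rw [Set.disjoint_left]
    intro e he he'
    exact (hT e he').2 he

theorem support_le {k : ℕ} {H : SimpleGraph V} {C : Finset V} : sN (red k H C) ≤ sN H := by
  simpa using drop_support (k := k) (H := H) (C := C) ∅ (by simp)

open scoped Classical in
/-- the neighbours of `v` -/
noncomputable def nb (H : SimpleGraph V) (v : V) : Finset V := univ.filter (H.Adj v)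

theorem mem_nb {H : SimpleGraph V} {v w : V} : w ∈ nb H v ↔ H.Adj v w := by
  classical simp [nb]

theorem card_nb (H : SimpleGraph V) (v : V) : (nb H v).card = dg H ∅ v := by
  classical simp [nb, dg]

open scoped Classical in
/-- the edges at `v` -/
noncomputable def st (H : SimpleGraph V) (v : V) : Finset (Sym2 V) :=
  (nb H v).image fun y => s(v, y)

theorem mem_st {H : SimpleGraph V} {v : V} {e : Sym2 V} :
    e ∈ st H v ↔ ∃ y, H.Adj v y ∧ s(v, y) = e := by
  classical
  simp [st, mem_nb]

theorem card_st (H : SimpleGraph V) (v : V) : (st H v).card = dg H ∅ v := by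
  classical
  rw [st, card_image_of_injOn, card_nb]
  intro a _ b _ h
  rcases Sym2.eq_iff.1 h with h | h
  · exact h.2
  · exact h.2.trans h.1

theorem mem_st_iff {H : SimpleGraph V} {v a b : V} :
    s(a, b) ∈ st H v ↔ H.Adj a b ∧ (v = a ∨ v = b) := by
  rw [mem_st]
  constructor
  · rintro ⟨y, hy, h⟩
    rcases Sym2.eq_iff.1 h with ⟨rfl, rfl⟩ | ⟨rfl, rfl⟩
    · exact ⟨hy, Or.inl rfl⟩
    · exact ⟨hy.symm, Or.inr rfl⟩
  · rintro ⟨h, rfl | rfl⟩
    · exact ⟨b, h, rfl⟩
    · exact ⟨a, h.symm, Sym2.eq_swap⟩

/-- edges at a deleted vertex disappear -/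
theorem st_drop {k : ℕ} {H : SimpleGraph V} {C : Finset V} {v : V} (hv : v ∈ C) :
    ∀ e ∈ st H v, e ∈ H.edgeSet ∧ e ∉ (red k H C).edgeSet := by
  intro e he
  obtain ⟨y, hy, rfl⟩ := mem_st.1 he
  refine ⟨hy, ?_⟩
  rw [mem_edgeSet]
  exact fun h => h.2.1 hv

/-- edges between low vertices disappear -/
theorem low_drop {k : ℕ} {H : SimpleGraph V} {C : Finset V} {a b : V} (hab : H.Adj a b)
    (ha : dg H C a ≤ k) (hb : dg H C b ≤ k) :
    s(a, b) ∈ H.edgeSet ∧ s(a, b) ∉ (red k H C).edgeSet := by
  refine ⟨hab, ?_⟩
  rw [mem_edgeSet]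
  intro h
  rcases h.2.2.2 with h | h <;> omega

theorem step {k : ℕ} (hk : 2 ≤ k) (H : SimpleGraph V) (hbad : ∃ v, k < dg H ∅ v) :
    ∃ C : Finset V, eN (red k H C) < eN H ∧
      (2 * k ^ 2 + 5 * k + 4) * C.card + (2 * (k + 1) * eN (red k H C) + sN (red k H C)) ≤
        2 * (k + 1) * eN H + sN H := by
  classical
  -- a vertex of degree at least `k + 2`
  by_cases h1 : ∃ v, k + 2 ≤ dg H ∅ v
  · obtain ⟨v, hv⟩ := h1
    refine ⟨{v}, ?_⟩
    have h2 := drop_edges (k := k) (H := H) (C := {v}) (st H v) (st_drop (mem_singleton_self v))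
    rw [card_st] at h2
    have h3 := support_le (k := k) (H := H) (C := {v})
    refine ⟨by omega, ?_⟩
    rw [card_singleton]
    nlinarith
  push Not at h1
  -- an edge between two vertices of low degree
  by_cases h0 : ∃ u x, H.Adj u x ∧ dg H ∅ u ≤ k ∧ dg H ∅ x ≤ k
  · obtain ⟨u, x, hux, hu, hx⟩ := h0
    refine ⟨∅, ?_⟩
    have h2 := drop_edges (k := k) (H := H) (C := ∅) {s(u, x)} (by
      intro e he
      rw [mem_singleton] at he
      subst he
      exact low_drop hux hu hx)
    rw [card_singleton] at h2
    have h3 := support_le (k := k) (H := H) (C := ∅)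
    refine ⟨by omega, ?_⟩
    rw [card_empty]
    nlinarith
  push Not at h0
  -- adjacent high vertices, one of them with a low neighbour
  by_cases hC : ∃ v u x, H.Adj v u ∧ k < dg H ∅ v ∧ k < dg H ∅ u ∧ H.Adj u x ∧ x ≠ v ∧
      dg H ∅ x ≤ k
  · obtain ⟨v, u, x, hvu, hv, hu, hux, hxv, hx⟩ := hC
    refine ⟨{v}, ?_⟩
    have hnot : s(u, x) ∉ st H v := by
      rw [mem_st_iff]
      rintro ⟨-, rfl | rfl⟩
      · exact hvu.ne rfl
      · exact hxv rfl
    have h2 := drop_edges (k := k) (H := H) (C := {v}) (insert s(u, x) (st H v)) (by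
      intro e he
      rw [mem_insert] at he
      rcases he with rfl | he
      · apply low_drop hux
        · have := dg_lt H (mem_singleton_self v) hvu.symm
          have := h1 u
          omega
        · exact (dg_le_empty H _ x).trans hx
      · exact st_drop (mem_singleton_self v) e he)
    rw [card_insert_of_notMem hnot, card_st] at h2
    have h3 := support_le (k := k) (H := H) (C := {v})
    refine ⟨by omega, ?_⟩
    rw [card_singleton]
    nlinarith
  push Not at hC
  obtain ⟨v, hv⟩ := hbad
  have hvk : dg H ∅ v = k + 1 := by have := h1 v; omega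
  by_cases hlow : ∃ u, H.Adj v u ∧ k < dg H ∅ u
  · -- every vertex near `v` is high
    obtain ⟨u, hvu, hu⟩ := hlow
    have huk : dg H ∅ u = k + 1 := by have := h1 u; omega
    have hvnb : ∀ x, H.Adj v x → k < dg H ∅ x := by
      intro x hx
      by_cases hxu : x = u
      · rw [hxu]; exact hu
      · exact hC u v x hvu.symm hu hv hx hxu
    by_cases hE1 : ∃ a b, H.Adj v a ∧ H.Adj v b ∧ H.Adj a b
    · obtain ⟨a, b, ha, hb, hab⟩ := hE1
      refine ⟨{v}, ?_⟩
      have hnot : s(a, b) ∉ st H v := by
        rw [mem_st_iff]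
        rintro ⟨-, rfl | rfl⟩
        · exact ha.ne rfl
        · exact hb.ne rfl
      have h2 := drop_edges (k := k) (H := H) (C := {v}) (insert s(a, b) (st H v)) (by
        intro e he
        rw [mem_insert] at he
        rcases he with rfl | he
        · apply low_drop hab
          · have := dg_lt H (mem_singleton_self v) ha.symm
            have := h1 a
            omega
          · have := dg_lt H (mem_singleton_self v) hb.symm
            have := h1 b
            omega
        · exact st_drop (mem_singleton_self v) e he)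
      rw [card_insert_of_notMem hnot, card_st] at h2
      have h3 := support_le (k := k) (H := H) (C := {v})
      refine ⟨by omega, ?_⟩
      rw [card_singleton]
      nlinarith
    push Not at hE1
    have hunb : ∀ z, H.Adj u z → k < dg H ∅ z := by
      intro z hz
      by_cases hzv : z = v
      · rw [hzv]; exact hv
      · exact hC v u z hvu hv hu hz hzv
    by_cases hE2 : ∃ z p, H.Adj u z ∧ z ≠ v ∧ H.Adj z p ∧ ¬ H.Adj v p
    · obtain ⟨z, p, huz, hzv, hzp, hvp⟩ := hE2
      have hpv : p ≠ v := by
        rintro rfl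
        exact hE1 u z hvu hzp.symm huz
      have hpu : p ≠ u := by
        rintro rfl
        exact hvp hvu
      have hp : k < dg H ∅ p := hC u z p huz hu (hunb z huz) hzp hpu
      refine ⟨{v, p}, ?_⟩
      have hdis : Disjoint (st H v) (st H p) := by
        rw [Finset.disjoint_left]
        intro e he he'
        obtain ⟨y, hy, rfl⟩ := mem_st.1 he
        rw [mem_st_iff] at he'
        rcases he'.2 with h | h
        · exact hpv h
        · subst h; exact hvp hy
      have hnot : s(u, z) ∉ st H v ∪ st H p := by
        rw [mem_union, mem_st_iff, mem_st_iff]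
        rintro (⟨-, rfl | rfl⟩ | ⟨-, rfl | rfl⟩)
        · exact hvu.ne rfl
        · exact hzv rfl
        · exact hpu rfl
        · exact hzp.ne rfl
      have h2 := drop_edges (k := k) (H := H) (C := {v, p})
        (insert s(u, z) (st H v ∪ st H p)) (by
        intro e he
        rw [mem_insert, mem_union] at he
        rcases he with rfl | he | he
        · apply low_drop huz
          · have := dg_lt H (C := {v, p}) (by simp) hvu.symm
            omega
          · have := dg_lt H (C := {v, p}) (by simp) hzp
            have := h1 z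
            omega
        · exact st_drop (by simp) e he
        · exact st_drop (by simp) e he)
      rw [card_insert_of_notMem hnot, card_union_of_disjoint hdis, card_st, card_st] at h2
      have h3 := drop_support (k := k) (H := H) (C := {v, p}) {v, p} (by
        intro w hw
        simp only [mem_insert, mem_singleton] at hw
        constructor
        · rcases hw with rfl | rfl
          · exact ⟨u, hvu⟩
          · exact ⟨z, hzp.symm⟩
        · rintro ⟨y, hy⟩
          exact hy.2.1 (by simpa using hw))
      rw [card_pair hpv.symm] at h3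
      refine ⟨by omega, ?_⟩
      rw [card_pair hpv.symm]
      nlinarith
    push Not at hE2
    -- a component `K_{k+1,k+1}`
    have hL : ∀ z, H.Adj u z → nb H z = nb H v := by
      intro z hz
      by_cases hzv : z = v
      · rw [hzv]
      · apply eq_of_subset_of_card_le
        · intro p hp
          rw [mem_nb] at hp ⊢
          exact hE2 z p hz hzv hp
        · rw [card_nb, card_nb]
          have := hunb z hz
          omega
    refine ⟨{v, u}, ?_⟩
    have hinj : Set.InjOn (fun x : V × V => s(x.1, x.2)) (nb H v ×ˢ nb H u : Finset (V × V)) := by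
      rintro ⟨a, b⟩ hab ⟨c, d⟩ hcd h
      simp only [coe_product, Set.mem_prod, mem_coe, mem_nb] at hab hcd
      rcases Sym2.eq_iff.1 h with h | h
      · exact Prod.ext h.1 h.2
      · exfalso
        have h4 : H.Adj v b := by rw [show b = c from h.2]; exact hcd.1
        exact hE1 u b hvu h4 hab.2
    have h2 := drop_edges (k := k) (H := H) (C := {v, u})
      ((nb H v ×ˢ nb H u).image (fun x : V × V => s(x.1, x.2))) (by
      intro e he
      simp only [mem_image, mem_product, mem_nb, Prod.exists] at he
      obtain ⟨a, b, ⟨ha, hb⟩, rfl⟩ := he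
      have hba : H.Adj b a := by
        have : a ∈ nb H b := by rw [hL b hb, mem_nb]; exact ha
        exact mem_nb.1 this
      apply low_drop hba.symm
      · have := dg_lt H (C := {v, u}) (by simp) ha.symm
        have := h1 a
        omega
      · have := dg_lt H (C := {v, u}) (by simp) hb.symm
        have := h1 b
        omega)
    rw [card_image_of_injOn hinj, card_product, card_nb, card_nb, hvk, huk] at h2
    have h3 := support_le (k := k) (H := H) (C := {v, u})
    refine ⟨by nlinarith, ?_⟩
    rw [card_pair hvu.ne]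
    have h5 : 2 * (2 * k ^ 2 + 5 * k + 4) ≤ 2 * (k + 1) * ((k + 1) * (k + 1)) := by nlinarith
    have h6 : 2 * (k + 1) * eN (red k H {v, u}) + 2 * (k + 1) * ((k + 1) * (k + 1)) ≤
        2 * (k + 1) * eN H := by
      rw [← mul_add]; exact Nat.mul_le_mul_left _ h2
    linarith
  · push Not at hlow
    by_cases hD1 : ∀ x, H.Adj v x → dg H ∅ x ≤ 1
    · refine ⟨{v}, ?_⟩
      have h2 := drop_edges (k := k) (H := H) (C := {v}) (st H v) (st_drop (mem_singleton_self v))
      have hvn : v ∉ nb H v := by rw [mem_nb]; exact fun h => h.ne rfl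
      have h3 := drop_support (k := k) (H := H) (C := {v}) (insert v (nb H v)) (by
        intro w hw
        rw [mem_insert, mem_nb] at hw
        constructor
        · rcases hw with rfl | hw
          · have : 0 < (nb H w).card := by rw [card_nb]; omega
            obtain ⟨y, hy⟩ := card_pos.1 this
            exact ⟨y, mem_nb.1 hy⟩
          · exact ⟨v, hw.symm⟩
        · rintro ⟨y, hy⟩
          rcases hw with rfl | hw
          · exact hy.2.1 (by simp)
          · have h4 : y ≠ v := by
              rintro rfl
              exact hy.2.2.1 (by simp)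
            have h5 := hD1 w hw
            rw [← card_nb, card_le_one] at h5
            exact h4 (h5 y (mem_nb.2 hy.1) v (mem_nb.2 hw.symm)))
      rw [card_st, hvk] at h2
      rw [card_insert_of_notMem hvn, card_nb, hvk] at h3
      refine ⟨by omega, ?_⟩
      rw [card_singleton]
      nlinarith
    · push Not at hD1
      obtain ⟨x, hvx, hx⟩ := hD1
      have hxk := hlow x hvx
      -- a second neighbour of `x`
      obtain ⟨v', hv', hne⟩ : ∃ v', H.Adj x v' ∧ v' ≠ v := by
        rw [← card_nb] at hx
        obtain ⟨y, hy, hne⟩ := exists_mem_ne hx v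
        exact ⟨y, mem_nb.1 hy, hne⟩
      have hv'h : k < dg H ∅ v' := h0 x v' hv' hxk
      have hv'k : dg H ∅ v' = k + 1 := by have := h1 v'; omega
      have hv'low : ∀ y, H.Adj v' y → dg H ∅ y ≤ k := by
        intro y hy
        by_contra hcon
        push Not at hcon
        have hxy : x ≠ y := by
          rintro rfl
          omega
        have := hC y v' x hy.symm hcon hv'h hv'.symm hxy
        omega
      refine ⟨{x}, ?_⟩
      have hdis : Disjoint (st H v) (st H v') := by
        rw [Finset.disjoint_left]
        intro e he he'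
        obtain ⟨y, hy, rfl⟩ := mem_st.1 he
        rw [mem_st_iff] at he'
        rcases he'.2 with h | h
        · exact hne h
        · subst h
          have := hlow v' hy
          omega
      have h2 := drop_edges (k := k) (H := H) (C := {x}) (st H v ∪ st H v') (by
        intro e he
        rw [mem_union] at he
        rcases he with he | he
        · obtain ⟨y, hy, rfl⟩ := mem_st.1 he
          apply low_drop hy
          · have := dg_lt H (C := {x}) (by simp) hvx
            omega
          · exact (dg_le_empty H _ y).trans (hlow y hy)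
        · obtain ⟨y, hy, rfl⟩ := mem_st.1 he
          apply low_drop hy
          · have := dg_lt H (C := {x}) (by simp) hv'.symm
            omega
          · exact (dg_le_empty H _ y).trans (hv'low y hy))
      rw [card_union_of_disjoint hdis, card_st, card_st, hvk, hv'k] at h2
      have h3 := support_le (k := k) (H := H) (C := {x})
      refine ⟨by omega, ?_⟩
      rw [card_singleton]
      nlinarith

theorem exists_good {k : ℕ} (hk : 2 ≤ k) (m : ℕ) : ∀ H : SimpleGraph V, eN H ≤ m →
    ∃ D : Finset V, IsGood k H D ∧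
      (2 * k ^ 2 + 5 * k + 4) * D.card ≤ 2 * (k + 1) * eN H + sN H := by
  classical
  induction m with
  | zero =>
    intro H hH
    by_cases hbad : ∃ v, k < dg H ∅ v
    · obtain ⟨C, hC, -⟩ := step hk H hbad
      omega
    · push Not at hbad
      exact ⟨∅, fun v _ => hbad v, by simp⟩
  | succ m ih =>
    intro H hH
    by_cases hbad : ∃ v, k < dg H ∅ v
    · obtain ⟨C, hC, hC2⟩ := step hk H hbad
      obtain ⟨D, hD, hD2⟩ := ih (red k H C) (by omega)
      refine ⟨D ∪ C, good_of_red hD, ?_⟩
      have := card_union_le D C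
      nlinarith
    · push Not at hbad
      exact ⟨∅, fun v _ => hbad v, by simp⟩

theorem bound {k d : ℕ} (hk : 2 ≤ k) (G : SimpleGraph V) [Nonempty V] (hd : avgDeg G ≤ d) :
    1 - (((k : ℝ) + 1) * d + 1) / (2 * (k : ℝ) ^ 2 + 5 * k + 4) ≤
      (kIndepNum k G : ℝ) / Fintype.card V := by
  classical
  obtain ⟨D, hD, hDc⟩ := exists_good hk (eN G) G le_rfl
  have hn : (0 : ℝ) < Fintype.card V := by exact_mod_cast Fintype.card_pos
  -- the number of edges
  have he : (2 : ℝ) * eN G ≤ d * Fintype.card V := by
    have h1 : (2 : ℝ) * eN G = ∑ v, (G.degree v : ℝ) := by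
      have h2 := G.sum_degrees_eq_twice_card_edges
      have h3 : eN G = G.edgeFinset.card := by
        unfold eN
        rw [Set.ncard_eq_toFinset_card']
        rfl
      rw [h3]
      exact_mod_cast h2.symm
    unfold avgDeg at hd
    rw [div_le_iff₀ hn] at hd
    rw [h1]
    exact hd
  have hs : (sN G : ℝ) ≤ Fintype.card V := by
    have : sN G ≤ Fintype.card V := by
      unfold sN
      rw [← Nat.card_eq_fintype_card, ← Set.ncard_univ]
      exact Set.ncard_le_ncard (Set.subset_univ _)
    exact_mod_cast this
  -- the complement of `D`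
  have hind : IsKIndep k G (univ \ D) := by
    intro v hv
    simp only [mem_sdiff, mem_univ, true_and] at hv
    refine le_trans (le_of_eq ?_) (hD v hv)
    unfold dg
    rw [← Set.ncard_coe_finset]
    congr 1
    ext w
    simp [and_comm]
  have hle : (univ \ D).card ≤ kIndepNum k G := by
    unfold kIndepNum
    apply le_csSup
    · refine ⟨Fintype.card V, ?_⟩
      rintro m ⟨S, rfl, -⟩
      exact card_le_univ S
    · exact ⟨_, rfl, hind⟩
  rw [card_univ_sdiff] at hle
  have hDle : D.card ≤ Fintype.card V := card_le_univ D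
  have hle' : (Fintype.card V : ℝ) - D.card ≤ kIndepNum k G := by
    have : Fintype.card V ≤ kIndepNum k G + D.card := by omega
    have : (Fintype.card V : ℝ) ≤ kIndepNum k G + D.card := by exact_mod_cast this
    linarith
  have hDc' : (2 * (k : ℝ) ^ 2 + 5 * k + 4) * D.card ≤ 2 * ((k : ℝ) + 1) * eN G + sN G := by
    exact_mod_cast hDc
  have hN : (0 : ℝ) < 2 * (k : ℝ) ^ 2 + 5 * k + 4 := by positivity
  have hDn : (D.card : ℝ) ≤ (((k : ℝ) + 1) * d + 1) / (2 * (k : ℝ) ^ 2 + 5 * k + 4) *
      Fintype.card V := by
    rw [div_mul_eq_mul_div, le_div_iff₀ hN]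
    have hk0 : (0 : ℝ) ≤ (k : ℝ) + 1 := by positivity
    nlinarith [mul_le_mul_of_nonneg_left he hk0]
  rw [le_div_iff₀ hn]
  nlinarith

end Main

/-- `f k d`: the infimum of `α_k(G) / |V(G)|` over all graphs `G` with at least one vertex and
average degree at most `d` -/
noncomputable def f (k d : ℕ) : ℝ :=
  sInf {x : ℝ | ∃ (n : ℕ) (G : SimpleGraph (Fin (n + 1))), avgDeg G ≤ d ∧
    x = (kIndepNum k G : ℝ) / ((n : ℝ) + 1)}

/-- **The bound `f(k,d) ≥ (2k+2-d)/(2k+2)` is not sharp for any integers `k ≥ d ≥ 2`.** -/
theorem result : ∀ k d : ℕ, 2 ≤ d → d ≤ k →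
    (2 * (k : ℝ) + 2 - d) / (2 * k + 2) <
        1 - (((k : ℝ) + 1) * d + 1) / (2 * (k : ℝ) ^ 2 + 5 * k + 4) ∧
      1 - (((k : ℝ) + 1) * d + 1) / (2 * (k : ℝ) ^ 2 + 5 * k + 4) ≤ f k d := by
  intro k d hd hdk
  have hd' : (2 : ℝ) ≤ d := by exact_mod_cast hd
  have hk0 : (0 : ℝ) ≤ k := by positivity
  constructor
  · have h1 : (0 : ℝ) < 2 * k + 2 := by positivity
    have h2 : (0 : ℝ) < 2 * (k : ℝ) ^ 2 + 5 * k + 4 := by positivity
    have h3 : (2 * (k : ℝ) + 2 - d) / (2 * k + 2) = 1 - d / (2 * k + 2) := by
      field_simp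
    rw [h3]
    apply sub_lt_sub_left
    rw [div_lt_div_iff₀ h2 h1]
    nlinarith
  · unfold f
    apply le_csInf
    · refine ⟨_, 0, ⊥, ?_, rfl⟩
      unfold avgDeg
      simp
    · rintro x ⟨n, G, hG, rfl⟩
      have := bound (le_trans hd hdk) G hG
      simpa using this

end Pool.Agent.Results.MP_10f18b_co.NotSharp
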